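import Mathlib

open MeasureTheory

namespace Pool.Agent.W_MP_ee40c7_co

/-- Area (Lebesgue measure in the plane) of the convex hull of a finite set of points. -/
noncomputable def hullArea (A : Finset (ℝ × ℝ)) : ℝ :=
  (volume (convexHull ℝ (A : Set (ℝ × ℝ)))).toReal

/-- The set of all areas of convex hulls of `k`-element subsets of `S`. -/
def areas (k : ℕ) (S : Finset (ℝ × ℝ)) : Set ℝ :=
  {a | ∃ A : Finset (ℝ × ℝ), A ⊆ S ∧ A.card = k ∧ a = hullArea A}

/-- `T_k(S)`: the largest area of the convex hull of a `k`-element subset of `S`. -/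
noncomputable def bigT (k : ℕ) (S : Finset (ℝ × ℝ)) : ℝ := sSup (areas k S)

/-- `t_k(S)`: the smallest positive area of the convex hull of a `k`-element subset of `S`. -/
noncomputable def smallT (k : ℕ) (S : Finset (ℝ × ℝ)) : ℝ := sInf {a | a ∈ areas k S ∧ 0 < a}

/-- `f(k,n)`: the infimum of `T_k(S) / t_k(S)` over the `n`-point sets `S` that are not
collinear. -/
noncomputable def f (k n : ℕ) : ℝ :=
  sInf {r | ∃ S : Finset (ℝ × ℝ), S.card = n ∧ ¬ Collinear ℝ (S : Set (ℝ × ℝ)) ∧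
    r = bigT k S / smallT k S}

/-- The set `S_n`: the points `(0,j)` with `0 ≤ j ≤ [(n-1)/2]` and the points `(1,j)` with
`0 ≤ j ≤ [(n-2)/2]`. -/
noncomputable def Sn (n : ℕ) : Finset (ℝ × ℝ) :=
  (Finset.range ((n - 1) / 2 + 1)).image (fun j : ℕ => ((0 : ℝ), (j : ℝ))) ∪
    (Finset.range ((n - 2) / 2 + 1)).image (fun j : ℕ => ((1 : ℝ), (j : ℝ)))

end Pool.Agent.W_MP_ee40c7_co
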