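import Mathlib

open MeasureTheory Set

namespace Pool.Agent.W_MP_ee40c7_co

/-- The trapezoid with vertical sides on the lines `x = 0` and `x = 1`. -/
def trap (a b c d : ℝ) : Set (ℝ × ℝ) :=
  {p | 0 ≤ p.1 ∧ p.1 ≤ 1 ∧ (1 - p.1) * a + p.1 * c ≤ p.2 ∧ p.2 ≤ (1 - p.1) * b + p.1 * d}

lemma convex_trap (a b c d : ℝ) : Convex ℝ (trap a b c d) := by
  rintro ⟨x, y⟩ ⟨h1, h2, h3, h4⟩ ⟨x', y'⟩ ⟨h1', h2', h3', h4'⟩ s t hs ht hst
  simp only at h1 h2 h3 h4 h1' h2' h3' h4'
  refine ⟨?_, ?_, ?_, ?_⟩ <;> simp only [Prod.smul_mk, Prod.mk_add_mk, smul_eq_mul]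
  · positivity
  · nlinarith
  · have e1 := mul_le_mul_of_nonneg_left h3 hs
    have e2 := mul_le_mul_of_nonneg_left h3' ht
    have e3 : (1 - (s * x + t * x')) * a + (s * x + t * x') * c =
        s * ((1 - x) * a + x * c) + t * ((1 - x') * a + x' * c) := by
      linear_combination (-a) * hst
    linarith
  · have e1 := mul_le_mul_of_nonneg_left h4 hs
    have e2 := mul_le_mul_of_nonneg_left h4' ht
    have e3 : (1 - (s * x + t * x')) * b + (s * x + t * x') * d =
        s * ((1 - x) * b + x * d) + t * ((1 - x') * b + x' * d) := by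
      linear_combination (-b) * hst
    linarith

lemma volume_trap {a b c d : ℝ} (hab : a ≤ b) (hcd : c ≤ d) :
    (volume (trap a b c d)).toReal = ((b - a) + (d - c)) / 2 := by
  have hmeas : MeasurableSet (trap a b c d) := by
    have : trap a b c d = {p : ℝ × ℝ | 0 ≤ p.1} ∩ {p | p.1 ≤ 1} ∩
        {p | (1 - p.1) * a + p.1 * c ≤ p.2} ∩ {p | p.2 ≤ (1 - p.1) * b + p.1 * d} := by
      ext p; simp [trap, and_assoc]
    rw [this]
    refine ((MeasurableSet.inter ?_ ?_).inter ?_).inter ?_
    · exact measurableSet_le measurable_const measurable_fst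
    · exact measurableSet_le measurable_fst measurable_const
    · exact measurableSet_le (by fun_prop) (by fun_prop)
    · exact measurableSet_le (by fun_prop) (by fun_prop)
  have hvol : volume (trap a b c d) =
      ∫⁻ x in Icc (0:ℝ) 1, ENNReal.ofReal ((1 - x) * (b - a) + x * (d - c)) := by
    rw [Measure.volume_eq_prod, Measure.prod_apply hmeas, ← lintegral_indicator measurableSet_Icc]
    congr 1
    ext x
    by_cases hx : x ∈ Icc (0:ℝ) 1
    · rw [indicator_of_mem hx]
      have : Prod.mk x ⁻¹' trap a b c d = Icc ((1 - x) * a + x * c) ((1 - x) * b + x * d) := by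
        ext y
        simp only [trap, mem_preimage, mem_ofPred_eq, mem_Icc]
        exact ⟨fun h => ⟨h.2.2.1, h.2.2.2⟩, fun h => ⟨hx.1, hx.2, h.1, h.2⟩⟩
      rw [this, Real.volume_Icc]
      congr 1
      ring
    · rw [indicator_of_notMem hx]
      have : Prod.mk x ⁻¹' trap a b c d = ∅ := by
        ext y
        simp only [trap, mem_preimage, mem_ofPred_eq, mem_empty_iff_false, iff_false]
        exact fun h => hx ⟨h.1, h.2.1⟩
      rw [this, measure_empty]
  have hint : IntervalIntegrable (fun x : ℝ => (1 - x) * (b - a) + x * (d - c)) volume 0 1 := by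
    apply Continuous.intervalIntegrable
    fun_prop
  have hnn : 0 ≤ᵐ[volume.restrict (Icc (0:ℝ) 1)]
      (fun x : ℝ => (1 - x) * (b - a) + x * (d - c)) := by
    filter_upwards [ae_restrict_mem measurableSet_Icc] with x hx
    have h1 : 0 ≤ (1 - x) * (b - a) := mul_nonneg (by linarith [hx.2]) (by linarith)
    have h2 : 0 ≤ x * (d - c) := mul_nonneg hx.1 (by linarith)
    simpa using add_nonneg h1 h2
  rw [hvol, ← ofReal_integral_eq_lintegral_ofReal _ hnn]
  · rw [ENNReal.toReal_ofReal (integral_nonneg_of_ae hnn), integral_Icc_eq_integral_Ioc,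
      ← intervalIntegral.integral_of_le zero_le_one]
    have : (fun x : ℝ => (1 - x) * (b - a) + x * (d - c)) =
        fun x => (b - a) + x * ((d - c) - (b - a)) := by
      ext x; ring
    rw [this, intervalIntegral.integral_add (by simp) (by
      apply Continuous.intervalIntegrable; fun_prop), intervalIntegral.integral_mul_const]
    simp [integral_id]
    ring
  · exact (Continuous.integrableOn_Icc (by fun_prop))

/-- Every point of the trapezoid is in the convex hull of its four corners. -/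
lemma trap_subset_hull (a b c d : ℝ) :
    trap a b c d ⊆ convexHull ℝ {((0:ℝ), a), (0, b), (1, c), (1, d)} := by
  rintro ⟨x, y⟩ ⟨h1, h2, h3, h4⟩
  simp only at h1 h2 h3 h4
  set H := convexHull ℝ {((0:ℝ), a), (0, b), (1, c), (1, d)} with hH
  have hc : Convex ℝ H := convex_convexHull ℝ _
  have pa : ((0:ℝ), a) ∈ H := subset_convexHull ℝ _ (by simp)
  have pb : ((0:ℝ), b) ∈ H := subset_convexHull ℝ _ (by simp)
  have pc : ((1:ℝ), c) ∈ H := subset_convexHull ℝ _ (by simp)
  have pd : ((1:ℝ), d) ∈ H := subset_convexHull ℝ _ (by simp)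
  have low : (x, (1 - x) * a + x * c) ∈ H := by
    have := hc pa pc (a := 1 - x) (b := x) (by linarith) h1 (by ring)
    simpa using this
  have up : (x, (1 - x) * b + x * d) ∈ H := by
    have := hc pb pd (a := 1 - x) (b := x) (by linarith) h1 (by ring)
    simpa using this
  set l := (1 - x) * a + x * c with hl
  set u := (1 - x) * b + x * d with hu
  rcases eq_or_lt_of_le (h3.trans h4) with h | h
  · have : y = l := le_antisymm (by rw [h]; exact h4) h3
    rw [this]; exact low
  · have key := hc low up (a := (u - y) / (u - l)) (b := (y - l) / (u - l))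
      (div_nonneg (by linarith) (by linarith)) (div_nonneg (by linarith) (by linarith))
      (by rw [← add_div]; rw [div_eq_one_iff_eq (by linarith)]; ring)
    have hne : u - l ≠ 0 := by linarith
    have e : ((u - y) / (u - l)) • (x, l) + ((y - l) / (u - l)) • (x, u) = (x, y) := by
      simp only [Prod.smul_mk, Prod.mk_add_mk, smul_eq_mul, Prod.mk.injEq]
      constructor
      · field_simp; ring
      · field_simp; ring
    rw [e] at key
    exact key

lemma convexHull_eq_trap {A : Set (ℝ × ℝ)} {a b c d : ℝ}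
    (ha : ((0:ℝ), a) ∈ A) (hb : ((0:ℝ), b) ∈ A) (hc : ((1:ℝ), c) ∈ A) (hd : ((1:ℝ), d) ∈ A)
    (h : ∀ p ∈ A, (p.1 = 0 ∧ a ≤ p.2 ∧ p.2 ≤ b) ∨ (p.1 = 1 ∧ c ≤ p.2 ∧ p.2 ≤ d)) :
    convexHull ℝ A = trap a b c d := by
  apply Subset.antisymm
  · apply convexHull_min _ (convex_trap a b c d)
    intro p hp
    rcases h p hp with ⟨h0, h1, h2⟩ | ⟨h0, h1, h2⟩
    · refine ⟨by rw [h0], by rw [h0]; norm_num, by rw [h0]; simpa using h1, by
        rw [h0]; simpa using h2⟩
    · refine ⟨by rw [h0]; norm_num, by rw [h0], by rw [h0]; simpa using h1, by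
        rw [h0]; simpa using h2⟩
  · refine (trap_subset_hull a b c d).trans (convexHull_mono ?_)
    intro p hp
    simp only [mem_insert_iff, mem_singleton_iff] at hp
    rcases hp with rfl | rfl | rfl | rfl <;> assumption

/-- Area of the hull of a set on the two lines `x = 0`, `x = 1`, given its extreme points. -/
lemma area_hull {A : Set (ℝ × ℝ)} {a b c d : ℝ}
    (ha : ((0:ℝ), a) ∈ A) (hb : ((0:ℝ), b) ∈ A) (hc : ((1:ℝ), c) ∈ A) (hd : ((1:ℝ), d) ∈ A)
    (h : ∀ p ∈ A, (p.1 = 0 ∧ a ≤ p.2 ∧ p.2 ≤ b) ∨ (p.1 = 1 ∧ c ≤ p.2 ∧ p.2 ≤ d))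
    (hab : a ≤ b) (hcd : c ≤ d) :
    (volume (convexHull ℝ A)).toReal = ((b - a) + (d - c)) / 2 := by
  rw [convexHull_eq_trap ha hb hc hd h, volume_trap hab hcd]

/-- A set on a vertical line has a hull of area zero. -/
lemma area_line {A : Set (ℝ × ℝ)} {x : ℝ} (h : ∀ p ∈ A, p.1 = x) :
    (volume (convexHull ℝ A)).toReal = 0 := by
  have hsub : convexHull ℝ A ⊆ ({x} : Set ℝ) ×ˢ univ := by
    apply convexHull_min
    · intro p hp
      exact ⟨h p hp, mem_univ _⟩
    · exact (convex_singleton x).prod convex_univ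
  have : volume (({x} : Set ℝ) ×ˢ (univ : Set ℝ)) = 0 := by
    rw [Measure.volume_eq_prod, Measure.prod_prod]
    simp
  rw [measure_mono_null hsub this]
  simp

end Pool.Agent.W_MP_ee40c7_co
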