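import Mathlib
import Pool.Agent.W_MP_ee40c7_co.Trap

open MeasureTheory Finset

namespace Pool.Agent.W_MP_ee40c7_co

/-- Points `(0, p j)`, `j < m0`, and `(1, q j)`, `j < m1`. -/
noncomputable def pts (p q : ℕ → ℝ) (F0 F1 : Finset ℕ) : Finset (ℝ × ℝ) :=
  F0.image (fun j : ℕ => ((0 : ℝ), p j)) ∪ F1.image (fun j : ℕ => ((1 : ℝ), q j))

lemma mem_pts {p q : ℕ → ℝ} {F0 F1 : Finset ℕ} {z : ℝ × ℝ} :
    z ∈ pts p q F0 F1 ↔ (∃ j ∈ F0, ((0:ℝ), p j) = z) ∨ (∃ j ∈ F1, ((1:ℝ), q j) = z) := by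
  simp [pts]

lemma card_pts {p q : ℕ → ℝ} (hp : StrictMono p) (hq : StrictMono q) (F0 F1 : Finset ℕ) :
    (pts p q F0 F1).card = F0.card + F1.card := by
  unfold pts
  rw [card_union_of_disjoint, card_image_of_injective, card_image_of_injective]
  · intro i j h
    exact hq.injective (by simpa using h)
  · intro i j h
    exact hp.injective (by simpa using h)
  · rw [Finset.disjoint_left]
    intro z hz hz'
    rw [mem_image] at hz hz'
    obtain ⟨i, _, rfl⟩ := hz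
    obtain ⟨j, _, h⟩ := hz'
    simp at h

lemma pts_mono {p q : ℕ → ℝ} {F0 F1 G0 G1 : Finset ℕ} (h0 : F0 ⊆ G0) (h1 : F1 ⊆ G1) :
    pts p q F0 F1 ⊆ pts p q G0 G1 :=
  union_subset_union (image_subset_image h0) (image_subset_image h1)

lemma exists_eq_pts {p q : ℕ → ℝ} {G0 G1 : Finset ℕ} {A : Finset (ℝ × ℝ)}
    (hA : A ⊆ pts p q G0 G1) :
    ∃ F0 F1 : Finset ℕ, F0 ⊆ G0 ∧ F1 ⊆ G1 ∧ A = pts p q F0 F1 := by
  classical
  refine ⟨G0.filter (fun j => ((0:ℝ), p j) ∈ A), G1.filter (fun j => ((1:ℝ), q j) ∈ A),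
    filter_subset _ _, filter_subset _ _, ?_⟩
  ext z
  rw [mem_pts]
  constructor
  · intro hz
    rcases mem_pts.1 (hA hz) with ⟨j, hj, rfl⟩ | ⟨j, hj, rfl⟩
    · exact Or.inl ⟨j, mem_filter.2 ⟨hj, hz⟩, rfl⟩
    · exact Or.inr ⟨j, mem_filter.2 ⟨hj, hz⟩, rfl⟩
  · rintro (⟨j, hj, rfl⟩ | ⟨j, hj, rfl⟩)
    · exact (mem_filter.1 hj).2
    · exact (mem_filter.1 hj).2

lemma area_pts {p q : ℕ → ℝ} (hp : StrictMono p) (hq : StrictMono q) {F0 F1 : Finset ℕ}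
    (h0 : F0.Nonempty) (h1 : F1.Nonempty) :
    (volume (convexHull ℝ (pts p q F0 F1 : Set (ℝ × ℝ)))).toReal =
      ((p (F0.max' h0) - p (F0.min' h0)) + (q (F1.max' h1) - q (F1.min' h1))) / 2 := by
  apply area_hull
  · rw [mem_coe, mem_pts]; exact Or.inl ⟨_, F0.min'_mem h0, rfl⟩
  · rw [mem_coe, mem_pts]; exact Or.inl ⟨_, F0.max'_mem h0, rfl⟩
  · rw [mem_coe, mem_pts]; exact Or.inr ⟨_, F1.min'_mem h1, rfl⟩
  · rw [mem_coe, mem_pts]; exact Or.inr ⟨_, F1.max'_mem h1, rfl⟩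
  · intro z hz
    rw [mem_coe, mem_pts] at hz
    rcases hz with ⟨j, hj, rfl⟩ | ⟨j, hj, rfl⟩
    · exact Or.inl ⟨rfl, hp.monotone (F0.min'_le _ hj), hp.monotone (F0.le_max' _ hj)⟩
    · exact Or.inr ⟨rfl, hq.monotone (F1.min'_le _ hj), hq.monotone (F1.le_max' _ hj)⟩
  · exact hp.monotone (F0.min'_le _ (F0.max'_mem h0))
  · exact hq.monotone (F1.min'_le _ (F1.max'_mem h1))

lemma area_pts_left {p q : ℕ → ℝ} (F0 : Finset ℕ) :
    (volume (convexHull ℝ (pts p q F0 ∅ : Set (ℝ × ℝ)))).toReal = 0 := by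
  apply area_line (x := 0)
  intro z hz
  rw [mem_coe, mem_pts] at hz
  rcases hz with ⟨j, hj, rfl⟩ | ⟨j, hj, rfl⟩
  · rfl
  · simp at hj

lemma area_pts_right {p q : ℕ → ℝ} (F1 : Finset ℕ) :
    (volume (convexHull ℝ (pts p q ∅ F1 : Set (ℝ × ℝ)))).toReal = 0 := by
  apply area_line (x := 1)
  intro z hz
  rw [mem_coe, mem_pts] at hz
  rcases hz with ⟨j, hj, rfl⟩ | ⟨j, hj, rfl⟩
  · simp at hj
  · rfl

/-- A finite set of naturals with `c` elements has diameter at least `c - 1`. -/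
lemma card_le_diam {F : Finset ℕ} (h : F.Nonempty) : F.min' h + F.card ≤ F.max' h + 1 := by
  have hsub : F ⊆ Finset.Icc (F.min' h) (F.max' h) := by
    intro x hx
    exact Finset.mem_Icc.2 ⟨F.min'_le x hx, F.le_max' x hx⟩
  have h1 := card_le_card hsub
  rw [Nat.card_Icc] at h1
  have h2 := F.min'_le _ (F.max'_mem h)
  omega

end Pool.Agent.W_MP_ee40c7_co
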