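import Mathlib
import Pool.Agent.W_MP_ee40c7_co.Core
import Pool.Agent.W_MP_ee40c7_co.Defs

open MeasureTheory

namespace Pool.Agent.W_MP_ee40c7_co

/-! ### General facts on `bigT` and `smallT` -/


lemma areas_finite (k : ℕ) (S : Finset (ℝ × ℝ)) : (areas k S).Finite := by
  have : areas k S = hullArea '' (↑(S.powersetCard k) : Set (Finset (ℝ × ℝ))) := by
    ext a
    simp only [areas, Set.mem_ofPred_eq, Set.mem_image, Finset.mem_coe,
      Finset.mem_powersetCard]
    constructor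
    · rintro ⟨A, h1, h2, rfl⟩
      exact ⟨A, ⟨h1, h2⟩, rfl⟩
    · rintro ⟨A, ⟨h1, h2⟩, rfl⟩
      exact ⟨A, h1, h2, rfl⟩
  rw [this]
  exact (Finset.finite_toSet _).image _

lemma le_bigT {k : ℕ} {S A : Finset (ℝ × ℝ)} (hA : A ⊆ S) (hc : A.card = k) :
    hullArea A ≤ bigT k S :=
  le_csSup (areas_finite k S).bddAbove ⟨A, hA, hc, rfl⟩

lemma bigT_le {k : ℕ} {S : Finset (ℝ × ℝ)} {c : ℝ} (hk : k ≤ S.card)
    (h : ∀ A : Finset (ℝ × ℝ), A ⊆ S → A.card = k → hullArea A ≤ c) : bigT k S ≤ c := by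
  obtain ⟨A, hA, hc⟩ := Finset.exists_subset_card_eq hk
  have hne : (areas k S).Nonempty := ⟨hullArea A, A, hA, hc, rfl⟩
  apply csSup_le hne
  rintro _ ⟨B, hB, hB', rfl⟩
  exact h B hB hB'

lemma smallT_le {k : ℕ} {S A : Finset (ℝ × ℝ)} (hA : A ⊆ S) (hc : A.card = k)
    (hpos : 0 < hullArea A) : smallT k S ≤ hullArea A :=
  csInf_le ⟨0, fun _ hx => hx.2.le⟩ ⟨⟨A, hA, hc, rfl⟩, hpos⟩

lemma le_smallT {k : ℕ} {S A : Finset (ℝ × ℝ)} {c : ℝ} (hA : A ⊆ S) (hc : A.card = k)
    (hpos : 0 < hullArea A)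
    (h : ∀ B : Finset (ℝ × ℝ), B ⊆ S → B.card = k → 0 < hullArea B → c ≤ hullArea B) :
    c ≤ smallT k S := by
  have hne : ({a | a ∈ areas k S ∧ 0 < a} : Set ℝ).Nonempty :=
    ⟨hullArea A, ⟨A, hA, hc, rfl⟩, hpos⟩
  apply le_csInf hne
  rintro _ ⟨⟨B, hB, hB', rfl⟩, h'⟩
  exact h B hB hB' h'


/-! ### The set `S_n` -/

lemma Sn_eq (n : ℕ) : Sn n = pts (fun j : ℕ => (j : ℝ)) (fun j : ℕ => (j : ℝ))
    (Finset.range ((n - 1) / 2 + 1)) (Finset.range ((n - 2) / 2 + 1)) := rfl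

lemma card_Sn {n : ℕ} (hn : 4 ≤ n) : (Sn n).card = n := by
  rw [Sn_eq, card_pts Nat.strictMono_cast Nat.strictMono_cast]
  simp only [Finset.card_range]
  omega

lemma bigT_Sn {k n : ℕ} (hk : 4 ≤ k) (hn : k ≤ n) : bigT k (Sn n) = ((n : ℝ) - 2) / 2 := by
  have hcast : (((n - 1) / 2 : ℕ) : ℝ) + (((n - 2) / 2 : ℕ) : ℝ) = (n : ℝ) - 2 := by
    have : (n - 1) / 2 + (n - 2) / 2 + 2 = n := by omega
    have h2 : (((n - 1) / 2 + (n - 2) / 2 + 2 : ℕ) : ℝ) = (n : ℝ) := by rw [this]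
    push_cast at h2 ⊢
    linarith
  have hn2 : (0:ℝ) ≤ (n : ℝ) - 2 := by
    rw [← hcast]; positivity
  apply le_antisymm
  · apply bigT_le (by rw [card_Sn (by omega)]; exact hn)
    intro A hA _
    rw [Sn_eq] at hA
    obtain ⟨F0, F1, h0, h1, rfl⟩ := exists_eq_pts hA
    unfold hullArea
    rcases F0.eq_empty_or_nonempty with rfl | hF0
    · rw [area_pts_right]; positivity
    rcases F1.eq_empty_or_nonempty with rfl | hF1
    · rw [area_pts_left]; positivity
    rw [area_pts Nat.strictMono_cast Nat.strictMono_cast hF0 hF1, ← hcast]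
    have e0 : F0.max' hF0 ≤ (n - 1) / 2 := by
      have := Finset.mem_range.1 (h0 (F0.max'_mem hF0)); omega
    have e1 : F1.max' hF1 ≤ (n - 2) / 2 := by
      have := Finset.mem_range.1 (h1 (F1.max'_mem hF1)); omega
    have e0' : ((F0.max' hF0 : ℕ) : ℝ) ≤ (((n - 1) / 2 : ℕ) : ℝ) := by exact_mod_cast e0
    have e1' : ((F1.max' hF1 : ℕ) : ℝ) ≤ (((n - 2) / 2 : ℕ) : ℝ) := by exact_mod_cast e1
    have p0 : (0 : ℝ) ≤ ((F0.min' hF0 : ℕ) : ℝ) := by positivity
    have p1 : (0 : ℝ) ≤ ((F1.min' hF1 : ℕ) : ℝ) := by positivity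
    linarith
  · set P := pts (fun j : ℕ => (j : ℝ)) (fun j : ℕ => (j : ℝ))
      {0, (n - 1) / 2} {0, (n - 2) / 2} with hP
    have hPS : P ⊆ Sn n := by
      rw [Sn_eq]
      apply pts_mono
      · intro x hx
        simp only [Finset.mem_insert, Finset.mem_singleton] at hx
        rw [Finset.mem_range]; omega
      · intro x hx
        simp only [Finset.mem_insert, Finset.mem_singleton] at hx
        rw [Finset.mem_range]; omega
    have hPc : P.card ≤ k := by
      rw [hP, card_pts Nat.strictMono_cast Nat.strictMono_cast]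
      have := Finset.card_le_two (a := 0) (b := (n - 1) / 2)
      have := Finset.card_le_two (a := 0) (b := (n - 2) / 2)
      omega
    obtain ⟨A, hPA, hAS, hAc⟩ := Finset.exists_subsuperset_card_eq hPS hPc
      (by rw [card_Sn (by omega)]; exact hn)
    refine le_trans ?_ (le_bigT hAS hAc)
    rw [Sn_eq] at hAS
    obtain ⟨F0, F1, h0, h1, rfl⟩ := exists_eq_pts hAS
    have key0 : ∀ j ∈ ({0, (n - 1) / 2} : Finset ℕ), j ∈ F0 := by
      intro j hj
      have := hPA (mem_pts.2 (Or.inl ⟨j, hj, rfl⟩))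
      rcases mem_pts.1 this with ⟨i, hi, h⟩ | ⟨i, hi, h⟩
      · have : i = j := by simpa using h
        rwa [← this]
      · simp at h
    have key1 : ∀ j ∈ ({0, (n - 2) / 2} : Finset ℕ), j ∈ F1 := by
      intro j hj
      have := hPA (mem_pts.2 (Or.inr ⟨j, hj, rfl⟩))
      rcases mem_pts.1 this with ⟨i, hi, h⟩ | ⟨i, hi, h⟩
      · simp at h
      · have : i = j := by simpa using h
        rwa [← this]
    have hF0 : F0.Nonempty := ⟨0, key0 0 (by simp)⟩
    have hF1 : F1.Nonempty := ⟨0, key1 0 (by simp)⟩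
    unfold hullArea
    rw [area_pts Nat.strictMono_cast Nat.strictMono_cast hF0 hF1, ← hcast]
    have a0 : F0.min' hF0 = 0 := Nat.le_zero.1 (F0.min'_le 0 (key0 0 (by simp)))
    have a1 : F1.min' hF1 = 0 := Nat.le_zero.1 (F1.min'_le 0 (key1 0 (by simp)))
    have b0 : (((n - 1) / 2 : ℕ) : ℝ) ≤ ((F0.max' hF0 : ℕ) : ℝ) := by
      exact_mod_cast F0.le_max' _ (key0 _ (by simp))
    have b1 : (((n - 2) / 2 : ℕ) : ℝ) ≤ ((F1.max' hF1 : ℕ) : ℝ) := by
      exact_mod_cast F1.le_max' _ (key1 _ (by simp))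
    rw [a0, a1]
    simp only [Nat.cast_zero]
    linarith

lemma smallT_Sn {k n : ℕ} (hk : 4 ≤ k) (hn : k ≤ n) : smallT k (Sn n) = ((k : ℝ) - 2) / 2 := by
  have hk2 : (0:ℝ) < ((k : ℝ) - 2) / 2 := by
    have : (4:ℝ) ≤ k := by exact_mod_cast hk
    linarith
  -- a `k`-subset with the smallest positive area
  obtain ⟨j, hj1, hj2, hj3, hj4⟩ : ∃ j : ℕ, 1 ≤ j ∧ j ≤ (n - 1) / 2 + 1 ∧ j + 1 ≤ k ∧
      k - j ≤ (n - 2) / 2 + 1 := by
    by_cases h : k - 1 ≤ (n - 1) / 2 + 1
    · exact ⟨k - 1, by omega, h, by omega, by omega⟩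
    · exact ⟨(n - 1) / 2 + 1, by omega, le_rfl, by omega, by omega⟩
  set P := pts (fun j : ℕ => (j : ℝ)) (fun j : ℕ => (j : ℝ))
      (Finset.range j) (Finset.range (k - j)) with hP
  have hPS : P ⊆ Sn n := by
    rw [Sn_eq]
    apply pts_mono
    · intro x hx
      rw [Finset.mem_range] at hx ⊢; omega
    · intro x hx
      rw [Finset.mem_range] at hx ⊢; omega
  have hPc : P.card = k := by
    rw [hP, card_pts Nat.strictMono_cast Nat.strictMono_cast]
    simp only [Finset.card_range]; omega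
  have hPa : hullArea P = ((k : ℝ) - 2) / 2 := by
    have hF0 : (Finset.range j).Nonempty := ⟨0, Finset.mem_range.2 (by omega)⟩
    have hF1 : (Finset.range (k - j)).Nonempty := ⟨0, Finset.mem_range.2 (by omega)⟩
    unfold hullArea
    rw [hP, area_pts Nat.strictMono_cast Nat.strictMono_cast hF0 hF1]
    have a0 : (Finset.range j).min' hF0 = 0 :=
      Nat.le_zero.1 (Finset.min'_le _ 0 (Finset.mem_range.2 (by omega)))
    have a1 : (Finset.range (k - j)).min' hF1 = 0 :=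
      Nat.le_zero.1 (Finset.min'_le _ 0 (Finset.mem_range.2 (by omega)))
    have b0 : (Finset.range j).max' hF0 = j - 1 := by
      apply le_antisymm
      · have := Finset.mem_range.1 (Finset.max'_mem _ hF0); omega
      · exact Finset.le_max' _ _ (Finset.mem_range.2 (by omega))
    have b1 : (Finset.range (k - j)).max' hF1 = k - j - 1 := by
      apply le_antisymm
      · have := Finset.mem_range.1 (Finset.max'_mem _ hF1); omega
      · exact Finset.le_max' _ _ (Finset.mem_range.2 (by omega))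
    rw [a0, a1, b0, b1]
    have : (((j - 1) + (k - j - 1) + 2 : ℕ) : ℝ) = (k : ℝ) := by
      congr 1; omega
    push_cast at this ⊢
    linarith
  apply le_antisymm
  · rw [← hPa]
    exact smallT_le hPS hPc (by rw [hPa]; exact hk2)
  · apply le_smallT hPS hPc (by rw [hPa]; exact hk2)
    intro B hB hBc hBpos
    rw [Sn_eq] at hB
    obtain ⟨F0, F1, h0, h1, rfl⟩ := exists_eq_pts hB
    unfold hullArea at hBpos ⊢
    rcases F0.eq_empty_or_nonempty with rfl | hF0
    · rw [area_pts_right] at hBpos; exact absurd hBpos (lt_irrefl _)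
    rcases F1.eq_empty_or_nonempty with rfl | hF1
    · rw [area_pts_left] at hBpos; exact absurd hBpos (lt_irrefl _)
    rw [area_pts Nat.strictMono_cast Nat.strictMono_cast hF0 hF1]
    rw [card_pts Nat.strictMono_cast Nat.strictMono_cast] at hBc
    have d0 := card_le_diam hF0
    have d1 := card_le_diam hF1
    have : ((F0.min' hF0 + F1.min' hF1 + k : ℕ) : ℝ) ≤
        ((F0.max' hF0 + F1.max' hF1 + 2 : ℕ) : ℝ) := by
      exact_mod_cast (by omega)
    push_cast at this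
    linarith

/-! ### The clustered set -/

/-- The `i`-th point of the clustered sequence: clusters of `m` points at mutual distance `e`,
consecutive clusters at distance one. -/
noncomputable def pos (m : ℕ) (e : ℝ) (i : ℕ) : ℝ := ((i / m : ℕ) : ℝ) + e * ((i % m : ℕ) : ℝ)

lemma pos_add {m : ℕ} (hm : 0 < m) (e : ℝ) (i : ℕ) : pos m e (i + m) = pos m e i + 1 := by
  unfold pos
  rw [Nat.add_div_right _ hm, Nat.add_mod_right]
  push_cast
  ring

lemma pos_strictMono {m : ℕ} (hm : 0 < m) {e : ℝ} (he : 0 < e) (he' : e * m ≤ 1) :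
    StrictMono (pos m e) := by
  apply strictMono_nat_of_lt_succ
  intro i
  have hdm := Nat.div_add_mod i m
  have hlt := Nat.mod_lt i hm
  by_cases h : i % m + 1 < m
  · have h1 : (i + 1) / m = i / m := by
      rw [Nat.div_eq_iff hm]
      have : i / m * m = m * (i / m) := by ring
      constructor <;> omega
    have h2 : (i + 1) % m = i % m + 1 := by
      rw [Nat.add_mod, Nat.mod_eq_of_lt (a := 1) (by omega), Nat.mod_eq_of_lt h]
    unfold pos
    rw [h1, h2]
    push_cast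
    nlinarith
  · have h3 : i % m = m - 1 := by omega
    have h4 : i + 1 = m * (i / m + 1) := by
      have : m * (i / m + 1) = m * (i / m) + m := by ring
      omega
    unfold pos
    rw [h4, Nat.mul_div_cancel_left _ hm, Nat.mul_mod_right, h3]
    push_cast [Nat.cast_sub hm]
    nlinarith

lemma pos_zero (m : ℕ) (e : ℝ) : pos m e 0 = 0 := by simp [pos]

lemma cluster {k n : ℕ} (hk : 4 ≤ k) (hn : k ≤ n) {e : ℝ} (he : 0 < e)
    (he' : e * ((k - 2 : ℕ) : ℝ) ≤ 1) :
    ∃ S : Finset (ℝ × ℝ), S.card = n ∧ ¬ Collinear ℝ (S : Set (ℝ × ℝ)) ∧ 0 < smallT k S ∧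
      bigT k S / smallT k S ≤ (((n - 2) / (k - 2) : ℕ) : ℝ) + e * ((k - 3 : ℕ) : ℝ) := by
  have hm : 0 < k - 2 := by omega
  have hmono := pos_strictMono hm he he'
  have hcast : StrictMono (fun j : ℕ => (j : ℝ)) := Nat.strictMono_cast
  set C := pts (pos (k - 2) e) (fun j : ℕ => (j : ℝ)) (Finset.range (n - 1)) (Finset.range 1)
    with hC
  have hcard : C.card = n := by
    rw [hC, card_pts hmono hcast]
    simp only [Finset.card_range]; omega
  refine ⟨C, hcard, ?_, ?_⟩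
  · intro hcol
    have m0 : ((0:ℝ), pos (k - 2) e 0) ∈ (C : Set (ℝ × ℝ)) := by
      rw [Finset.mem_coe, hC, mem_pts]
      exact Or.inl ⟨0, Finset.mem_range.2 (by omega), rfl⟩
    have m1 : ((0:ℝ), pos (k - 2) e 1) ∈ (C : Set (ℝ × ℝ)) := by
      rw [Finset.mem_coe, hC, mem_pts]
      exact Or.inl ⟨1, Finset.mem_range.2 (by omega), rfl⟩
    have m2 : ((1:ℝ), ((0:ℕ) : ℝ)) ∈ (C : Set (ℝ × ℝ)) := by
      rw [Finset.mem_coe, hC, mem_pts]
      exact Or.inr ⟨0, Finset.mem_range.2 (by omega), rfl⟩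
    rw [collinear_iff_of_mem m0] at hcol
    obtain ⟨v, hv⟩ := hcol
    obtain ⟨r1, h1⟩ := hv _ m1
    obtain ⟨r2, h2⟩ := hv _ m2
    have e1 := congrArg Prod.fst h1
    have e2 := congrArg Prod.snd h1
    have e3 := congrArg Prod.fst h2
    simp only [vadd_eq_add, Prod.fst_add, Prod.snd_add, Prod.smul_fst, Prod.smul_snd,
      smul_eq_mul, add_zero] at e1 e2 e3
    have hpos : pos (k - 2) e 0 < pos (k - 2) e 1 := hmono Nat.zero_lt_one
    rcases mul_eq_zero.1 e1.symm with h | h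
    · rw [h] at e2; simp at e2; linarith
    · rw [h] at e3; simp at e3
  · -- a subset of positive area
    have hP : ∃ P : Finset (ℝ × ℝ), P ⊆ C ∧ P.card = k ∧ 0 < hullArea P := by
      refine ⟨pts (pos (k - 2) e) (fun j : ℕ => (j : ℝ)) (Finset.range (k - 1))
        (Finset.range 1), ?_, ?_, ?_⟩
      · apply pts_mono _ (Finset.Subset.refl _)
        intro x hx
        rw [Finset.mem_range] at hx ⊢; omega
      · rw [card_pts hmono hcast]
        simp only [Finset.card_range]; omega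
      · have hF0 : (Finset.range (k - 1)).Nonempty := ⟨0, Finset.mem_range.2 (by omega)⟩
        have hF1 : (Finset.range 1).Nonempty := ⟨0, Finset.mem_range.2 (by omega)⟩
        unfold hullArea
        rw [area_pts hmono hcast hF0 hF1]
        have a0 : (Finset.range (k - 1)).min' hF0 < (Finset.range (k - 1)).max' hF0 := by
          have h1 := Finset.min'_le (Finset.range (k - 1)) 0 (Finset.mem_range.2 (by omega))
          have h2 := Finset.le_max' (Finset.range (k - 1)) 1 (Finset.mem_range.2 (by omega))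
          omega
        have a1 : (Finset.range 1).min' hF1 ≤ (Finset.range 1).max' hF1 :=
          Finset.min'_le _ _ (Finset.max'_mem _ hF1)
        have b0 := hmono a0
        have b1 : (((Finset.range 1).min' hF1 : ℕ) : ℝ) ≤ (((Finset.range 1).max' hF1 : ℕ) : ℝ) := by
          exact_mod_cast a1
        linarith
    obtain ⟨P, hPC, hPc, hPpos⟩ := hP
    have hsmall : (1:ℝ) / 2 ≤ smallT k C := by
      apply le_smallT hPC hPc hPpos
      intro B hB hBc hBpos
      obtain ⟨F0, F1, h0, h1, rfl⟩ := exists_eq_pts hB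
      unfold hullArea at hBpos ⊢
      rcases F0.eq_empty_or_nonempty with rfl | hF0
      · rw [area_pts_right] at hBpos; exact absurd hBpos (lt_irrefl _)
      rcases F1.eq_empty_or_nonempty with rfl | hF1
      · rw [area_pts_left] at hBpos; exact absurd hBpos (lt_irrefl _)
      rw [area_pts hmono hcast hF0 hF1]
      rw [card_pts hmono hcast] at hBc
      have hF1c : F1.card ≤ 1 := by
        have := Finset.card_le_card h1
        simpa using this
      have d0 := card_le_diam hF0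
      have hle : F0.min' hF0 + (k - 2) ≤ F0.max' hF0 := by omega
      have h3 := hmono.monotone hle
      rw [pos_add hm] at h3
      have a1 : ((F1.min' hF1 : ℕ) : ℝ) ≤ ((F1.max' hF1 : ℕ) : ℝ) := by
        exact_mod_cast Finset.min'_le _ _ (Finset.max'_mem _ hF1)
      linarith
    have hbig : bigT k C ≤ ((((n - 2) / (k - 2) : ℕ) : ℝ) + e * ((k - 3 : ℕ) : ℝ)) / 2 := by
      apply bigT_le (by rw [hcard]; exact hn)
      intro B hB _
      obtain ⟨F0, F1, h0, h1, rfl⟩ := exists_eq_pts hB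
      unfold hullArea
      rcases F0.eq_empty_or_nonempty with rfl | hF0
      · rw [area_pts_right]; positivity
      rcases F1.eq_empty_or_nonempty with rfl | hF1
      · rw [area_pts_left]; positivity
      rw [area_pts hmono hcast hF0 hF1]
      have c0 : F0.max' hF0 ≤ n - 2 := by
        have := Finset.mem_range.1 (h0 (F0.max'_mem hF0)); omega
      have c1 : F1.max' hF1 = 0 := by
        have := Finset.mem_range.1 (h1 (F1.max'_mem hF1)); omega
      have c2 : F1.min' hF1 = 0 := by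
        have := Finset.mem_range.1 (h1 (F1.min'_mem hF1)); omega
      have c3 := hmono.monotone c0
      have c4 := hmono.monotone (Nat.zero_le (F0.min' hF0))
      rw [pos_zero] at c4
      have c5 : pos (k - 2) e (n - 2) ≤
          (((n - 2) / (k - 2) : ℕ) : ℝ) + e * ((k - 3 : ℕ) : ℝ) := by
        unfold pos
        have : (n - 2) % (k - 2) ≤ k - 3 := by
          have := Nat.mod_lt (n - 2) hm; omega
        have h' : (((n - 2) % (k - 2) : ℕ) : ℝ) ≤ ((k - 3 : ℕ) : ℝ) := by exact_mod_cast this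
        have := mul_le_mul_of_nonneg_left h' he.le
        linarith
      rw [c1, c2]
      linarith
    have hnn : (0:ℝ) ≤ (((n - 2) / (k - 2) : ℕ) : ℝ) + e * ((k - 3 : ℕ) : ℝ) := by positivity
    refine ⟨by linarith, ?_⟩
    calc bigT k C / smallT k C
        ≤ (((((n - 2) / (k - 2) : ℕ) : ℝ) + e * ((k - 3 : ℕ) : ℝ)) / 2) / (1 / 2) :=
          div_le_div₀ (by positivity) hbig (by norm_num) hsmall
      _ = _ := by ring

lemma ratio_nonneg (k : ℕ) (S : Finset (ℝ × ℝ)) : 0 ≤ bigT k S / smallT k S := by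
  apply div_nonneg
  · apply Real.sSup_nonneg
    rintro _ ⟨A, _, _, rfl⟩
    exact ENNReal.toReal_nonneg
  · apply Real.sInf_nonneg
    rintro _ ⟨_, h⟩
    exact h.le

lemma f_le {k n : ℕ} {S : Finset (ℝ × ℝ)} (h1 : S.card = n)
    (h2 : ¬ Collinear ℝ (S : Set (ℝ × ℝ))) : f k n ≤ bigT k S / smallT k S := by
  apply csInf_le
  · refine ⟨0, ?_⟩
    rintro _ ⟨S, _, _, rfl⟩
    exact ratio_nonneg k S
  · exact ⟨S, h1, h2, rfl⟩

lemma exists_better {k n : ℕ} (hk : 4 ≤ k) (hn : k ≤ n) (hdvd : ¬ (k - 2) ∣ (n - 2)) :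
    ∃ S : Finset (ℝ × ℝ), S.card = n ∧ ¬ Collinear ℝ (S : Set (ℝ × ℝ)) ∧ 0 < smallT k S ∧
      bigT k S / smallT k S < bigT k (Sn n) / smallT k (Sn n) := by
  have hk4 : (4:ℝ) ≤ k := by exact_mod_cast hk
  have hc2 : ((k - 2 : ℕ) : ℝ) = (k : ℝ) - 2 := by
    rw [Nat.cast_sub (by omega)]; norm_num
  have hc3 : ((k - 3 : ℕ) : ℝ) = (k : ℝ) - 3 := by
    rw [Nat.cast_sub (by omega)]; norm_num
  have hcn : ((n - 2 : ℕ) : ℝ) = (n : ℝ) - 2 := by
    rw [Nat.cast_sub (by omega)]; norm_num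
  have hpos : (0:ℝ) < (k : ℝ) - 2 := by linarith
  obtain ⟨S, h1, h2, h0, h3⟩ := cluster hk hn (e := 1 / ((k : ℝ) - 2) ^ 2) (by positivity) (by
    rw [hc2, div_mul_eq_mul_div, one_mul, div_le_one (by positivity)]
    nlinarith)
  refine ⟨S, h1, h2, h0, lt_of_le_of_lt h3 ?_⟩
  rw [bigT_Sn hk hn, smallT_Sn hk hn, hc3]
  have hdm := Nat.div_add_mod (n - 2) (k - 2)
  have hmod : 1 ≤ (n - 2) % (k - 2) := by
    rcases Nat.eq_zero_or_pos ((n - 2) % (k - 2)) with h | h
    · exact absurd (Nat.dvd_of_mod_eq_zero h) hdvd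
    · exact h
  have hreal : ((k : ℝ) - 2) * (((n - 2) / (k - 2) : ℕ) : ℝ) + 1 ≤ (n : ℝ) - 2 := by
    rw [← hc2, ← hcn]
    exact_mod_cast (by omega : (k - 2) * ((n - 2) / (k - 2)) + 1 ≤ n - 2)
  have e1 : ((n : ℝ) - 2) / 2 / (((k : ℝ) - 2) / 2) = ((n : ℝ) - 2) / ((k : ℝ) - 2) := by
    field_simp
  rw [e1, lt_div_iff₀ hpos]
  have e2 : 1 / ((k : ℝ) - 2) ^ 2 * ((k : ℝ) - 3) * ((k : ℝ) - 2) < 1 := by
    rw [div_mul_eq_mul_div, one_mul, div_mul_eq_mul_div, div_lt_one (by positivity)]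
    nlinarith
  nlinarith

theorem main (k : ℕ) (hk : 4 ≤ k) :
    (∀ n : ℕ, k ≤ n → ¬ (k - 2) ∣ (n - 2) →
      ∃ S : Finset (ℝ × ℝ), S.card = n ∧ ¬ Collinear ℝ (S : Set (ℝ × ℝ)) ∧ 0 < smallT k S ∧
        bigT k S / smallT k S < bigT k (Sn n) / smallT k (Sn n)) ∧
    (∀ n : ℕ, k ≤ n → f k n ≤ (((n - 2) / (k - 2) : ℕ) : ℝ) ∧
      bigT k (Sn n) / smallT k (Sn n) = ((n : ℝ) - 2) / ((k : ℝ) - 2)) ∧
    ¬ ∃ N : ℕ, ∀ n : ℕ, N ≤ n → k ≤ n → f k n = bigT k (Sn n) / smallT k (Sn n) := by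
  have hk4 : (4:ℝ) ≤ k := by exact_mod_cast hk
  refine ⟨fun n hn hd => exists_better hk hn hd, fun n hn => ⟨?_, ?_⟩, ?_⟩
  · apply le_of_forall_pos_le_add
    intro δ hδ
    have hc2 : ((k - 2 : ℕ) : ℝ) = (k : ℝ) - 2 := by
      rw [Nat.cast_sub (by omega)]; norm_num
    have hc3 : ((k - 3 : ℕ) : ℝ) = (k : ℝ) - 3 := by
      rw [Nat.cast_sub (by omega)]; norm_num
    have hpos : (0:ℝ) < (k : ℝ) - 2 := by linarith
    obtain ⟨S, h1, h2, _, h3⟩ := cluster hk hn (e := min 1 δ / ((k : ℝ) - 2)) (by positivity) (by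
      rw [hc2, div_mul_cancel₀ _ hpos.ne']
      exact min_le_left _ _)
    refine (f_le h1 h2).trans (h3.trans ?_)
    have e1 : min 1 δ / ((k : ℝ) - 2) * ((k : ℝ) - 3) ≤ δ := by
      rw [div_mul_eq_mul_div, div_le_iff₀ hpos]
      have h4 : min 1 δ ≤ δ := min_le_right _ _
      have h5 : 0 < min 1 δ := by positivity
      nlinarith
    rw [hc3]
    linarith
  · rw [bigT_Sn hk hn, smallT_Sn hk hn]
    have hpos : (0:ℝ) < (k : ℝ) - 2 := by linarith
    field_simp
  · rintro ⟨N, hN⟩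
    -- choose a large `n` with `n - 2 = (k - 2) * (N + k) + 1`
    set n := (k - 2) * (N + k) + 3 with hn
    have hk2 : 2 ≤ k - 2 := by omega
    have hnN : N + k ≤ n := by
      have : 1 * (N + k) ≤ (k - 2) * (N + k) := Nat.mul_le_mul_right _ (by omega)
      omega
    have hnd : ¬ (k - 2) ∣ (n - 2) := by
      intro hd
      have h1 : n - 2 = (k - 2) * (N + k) + 1 := by omega
      rw [h1] at hd
      have h2 : (k - 2) ∣ 1 := (Nat.dvd_add_right (Dvd.intro _ rfl)).1 hd
      have := Nat.le_of_dvd Nat.one_pos h2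
      omega
    obtain ⟨S, h1, h2, _, h3⟩ := exists_better hk (by omega : k ≤ n) hnd
    have := hN n (by omega) (by omega)
    have h4 := f_le (k := k) h1 h2
    linarith

end Pool.Agent.W_MP_ee40c7_co
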